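import Mathlib

/-!
Linear difference equations with polynomial coefficients: bounded order and degree of the equations
of the minors of two solutions.
-/

set_option autoImplicit false

namespace Pool.Agent.Q309.TP

variable {K : Type} [Field K]

/-- **Counting.** Polynomial relations of bounded degree between vectors of polynomials. -/
theorem exists_rel {ι : Type} [Fintype ι] (N E : ℕ) (hN : Fintype.card ι = N)
    (B : Fin (N + 1) → ι → Polynomial K) (hB : ∀ s i, (B s i).natDegree ≤ E) :
    ∃ Q : Fin (N + 1) → Polynomial K, (∃ s, Q s ≠ 0) ∧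
      (∀ s, (Q s).natDegree ≤ N * E) ∧ ∀ i, ∑ s, Q s * B s i = 0 := by
  classical
  set q := N * E with hq
  let M : Matrix (ι × Fin (q + E + 1)) (Fin (N + 1) × Fin (q + 1)) K := fun p w =>
    (Polynomial.X ^ (w.2 : ℕ) * B w.1 p.1).coeff p.2
  have hlt : Module.finrank K (ι × Fin (q + E + 1) → K) <
      Module.finrank K (Fin (N + 1) × Fin (q + 1) → K) := by
    rw [Module.finrank_fintype_fun_eq_card, Module.finrank_fintype_fun_eq_card, Fintype.card_prod,
      Fintype.card_prod, Fintype.card_fin, Fintype.card_fin, Fintype.card_fin, hN]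
    have h1 : N * (q + E + 1) = N * q + q + N := by
      rw [hq]
      ring
    have h2 : (N + 1) * (q + 1) = N * q + q + N + 1 := by ring
    omega
  have hker := LinearMap.ker_ne_bot_of_finrank_lt (f := M.mulVecLin) hlt
  obtain ⟨a, ha, ha0⟩ := (Submodule.ne_bot_iff _).1 hker
  have hM : ∀ p, ∑ w, M p w * a w = 0 := fun p => congrFun (LinearMap.mem_ker.1 ha) p
  let Q : Fin (N + 1) → Polynomial K := fun s =>
    ∑ l : Fin (q + 1), Polynomial.C (a (s, l)) * Polynomial.X ^ (l : ℕ)
  have hQd : ∀ s, (Q s).natDegree ≤ q := by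
    intro s
    refine Polynomial.natDegree_sum_le_of_forall_le _ _ fun l _ => ?_
    refine (Polynomial.natDegree_C_mul_X_pow_le _ _).trans ?_
    have := l.2
    omega
  refine ⟨Q, ?_, hQd, fun i => ?_⟩
  · by_contra hcon
    push Not at hcon
    apply ha0
    funext w
    have h1 := congrArg (fun p => Polynomial.coeff p (w.2 : ℕ)) (hcon w.1)
    simp only [Q, Polynomial.finsetSum_coeff, Polynomial.coeff_C_mul_X_pow,
      Polynomial.coeff_zero] at h1
    rw [Finset.sum_eq_single w.2] at h1
    · rw [if_pos rfl] at h1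
      exact h1
    · intro b _ hb
      rw [if_neg]
      intro h2
      exact hb (Fin.ext h2.symm)
    · intro h2
      exact absurd (Finset.mem_univ _) h2
  · ext j
    rw [Polynomial.coeff_zero]
    rcases Nat.lt_or_ge j (q + E + 1) with hj | hj
    · have h1 := hM (i, ⟨j, hj⟩)
      rw [Fintype.sum_prod_type] at h1
      rw [Polynomial.finsetSum_coeff, ← h1]
      refine Finset.sum_congr rfl fun s _ => ?_
      simp only [Q, M]
      rw [Finset.sum_mul, Polynomial.finsetSum_coeff]
      refine Finset.sum_congr rfl fun l _ => ?_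
      rw [mul_assoc, Polynomial.coeff_C_mul, mul_comm]
    · apply Polynomial.coeff_eq_zero_of_natDegree_lt
      refine lt_of_le_of_lt (Polynomial.natDegree_sum_le_of_forall_le (n := q + E) _ _
        fun s _ => ?_) (by omega)
      exact Polynomial.natDegree_mul_le.trans (Nat.add_le_add (hQd s) (hB s i))

/-- substitution of an affine polynomial -/
noncomputable def sb (a b : K) (P : Polynomial K) : Polynomial K :=
  P.comp (Polynomial.C a * Polynomial.X + Polynomial.C b)

theorem sb_eval (a b : K) (P : Polynomial K) (z : K) : (sb a b P).eval z = P.eval (a * z + b) := by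
  unfold sb
  rw [Polynomial.eval_comp, Polynomial.eval_add, Polynomial.eval_mul, Polynomial.eval_C,
    Polynomial.eval_X, Polynomial.eval_C]

theorem sb_deg (a b : K) (P : Polynomial K) : (sb a b P).natDegree ≤ P.natDegree := by
  unfold sb
  refine Polynomial.natDegree_comp_le.trans ?_
  have h1 : (Polynomial.C a * Polynomial.X + Polynomial.C b : Polynomial K).natDegree ≤ 1 := by
    compute_degree
  calc _ ≤ P.natDegree * 1 := Nat.mul_le_mul_left _ h1
    _ = _ := Nat.mul_one _

theorem sb_ne {a : K} (ha : a ≠ 0) (b : K) {P : Polynomial K} (hP : P ≠ 0) : sb a b P ≠ 0 := by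
  unfold sb
  intro h
  rw [Polynomial.comp_eq_zero_iff] at h
  rcases h with h | ⟨-, h⟩
  · exact hP h
  · have h1 := congrArg (fun p => Polynomial.coeff p 1) h
    simp only [Polynomial.coeff_add, Polynomial.coeff_C_mul, Polynomial.coeff_X_one,
      Polynomial.coeff_C_succ, add_zero, mul_one] at h1
    exact ha h1

theorem aff_iter {t : ℕ → K} {α β : K} (ht : ∀ m, t (m + 1) = α * t m + β) (c : ℕ) :
    ∃ b, ∀ m, t (m + c) = α ^ c * t m + b := by
  induction c with
  | zero => exact ⟨0, fun m => by rw [Nat.add_zero, pow_zero, one_mul, add_zero]⟩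
  | succ c ih =>
    obtain ⟨b, hb⟩ := ih
    refine ⟨α * b + β, fun m => ?_⟩
    rw [← Nat.add_assoc, ht, hb, pow_succ]
    ring

/-- a normalized linear difference equation of order `r`, for the indices up to `M` -/
def NS (r e M : ℕ) (t : ℕ → K) (f : ℕ → K) : Prop :=
  ∃ P : ℕ → Polynomial K, P r ≠ 0 ∧ (∀ k, (P k).natDegree ≤ e) ∧
    ∀ m, m + r ≤ M → ∑ k ∈ Finset.range (r + 1), (P k).eval (t m) * f (m + k) = 0

theorem ns_of {r e M : ℕ} {t : ℕ → K} {α β : K} (ht : ∀ m, t (m + 1) = α * t m + β) (hα : α ≠ 0)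
    {f : ℕ → K} {P : ℕ → Polynomial K} (hP : ∃ k ≤ r, P k ≠ 0) (hd : ∀ k, (P k).natDegree ≤ e)
    (hrec : ∀ m ≤ M, ∑ k ∈ Finset.range (r + 1), (P k).eval (t m) * f (m + k) = 0) :
    NS r e M t f := by
  classical
  obtain ⟨k0, hk0, hPk0⟩ := hP
  obtain ⟨ρ, hρr, hρ, hmax⟩ : ∃ ρ ≤ r, P ρ ≠ 0 ∧ ∀ k, ρ < k → k ≤ r → P k = 0 := by
    have hne : ((Finset.range (r + 1)).filter fun k => P k ≠ 0).Nonempty :=
      ⟨k0, Finset.mem_filter.2 ⟨Finset.mem_range.2 (by omega), hPk0⟩⟩
    refine ⟨((Finset.range (r + 1)).filter fun k => P k ≠ 0).max' hne, ?_, ?_, ?_⟩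
    · have := Finset.mem_range.1 (Finset.mem_filter.1 (Finset.max'_mem _ hne)).1
      omega
    · exact (Finset.mem_filter.1 (Finset.max'_mem _ hne)).2
    · intro k hk hkr
      by_contra h0
      have h1 := Finset.le_max' ((Finset.range (r + 1)).filter fun k => P k ≠ 0) k
        (Finset.mem_filter.2 ⟨Finset.mem_range.2 (Nat.lt_succ_of_le hkr), h0⟩)
      exact absurd h1 (not_le.2 hk)
  obtain ⟨c, hc⟩ : ∃ c, r = ρ + c := ⟨r - ρ, by omega⟩
  obtain ⟨b, hb⟩ := aff_iter ht c
  refine ⟨fun k => if c ≤ k then sb (α ^ c) b (P (k - c)) else 0, ?_, fun k => ?_, fun m hm => ?_⟩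
  · have h1 : r - c = ρ := by omega
    simp only [if_pos (show c ≤ r by omega), h1]
    exact sb_ne (pow_ne_zero _ hα) _ hρ
  · dsimp only
    split_ifs
    · exact (sb_deg _ _ _).trans (hd _)
    · rw [Polynomial.natDegree_zero]
      exact Nat.zero_le _
  · have h1 := hrec (m + c) (by omega)
    have h2 : ∑ k ∈ Finset.range (r + 1), (P k).eval (t (m + c)) * f (m + c + k) =
        ∑ k ∈ Finset.range (ρ + 1), (P k).eval (t (m + c)) * f (m + c + k) := by
      symm
      refine Finset.sum_subset (Finset.range_subset_range.2 (by omega)) fun k hk1 hk2 => ?_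
      rw [Finset.mem_range] at hk1 hk2
      rw [hmax k (by omega) (by omega), Polynomial.eval_zero, zero_mul]
    rw [h2] at h1
    have h3 : r + 1 = c + (ρ + 1) := by omega
    rw [h3, Finset.sum_range_add]
    have h4 : ∑ k ∈ Finset.range c, (if c ≤ k then sb (α ^ c) b (P (k - c)) else 0).eval (t m) *
        f (m + k) = 0 := by
      refine Finset.sum_eq_zero fun k hk => ?_
      rw [if_neg (by have := Finset.mem_range.1 hk; omega), Polynomial.eval_zero, zero_mul]
    rw [h4, zero_add, ← h1]
    refine Finset.sum_congr rfl fun k _ => ?_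
    beta_reduce
    rw [if_pos (Nat.le_add_right c k), sb_eval, ← hb, Nat.add_sub_cancel_left, Nat.add_assoc]

/-- the values in terms of the first ones -/
theorem state {r e M : ℕ} {t : ℕ → K} {α β : K} (ht : ∀ m, t (m + 1) = α * t m + β) (hα : α ≠ 0)
    {f : ℕ → K} (hf : NS r e M t f) : ∀ s : ℕ, ∃ (H : Polynomial K) (A : ℕ → Polynomial K),
      H ≠ 0 ∧ H.natDegree ≤ s * e ∧ (∀ a, (A a).natDegree ≤ s * e) ∧ ∀ m, m + s ≤ M →
        H.eval (t m) * f (m + s) = ∑ a ∈ Finset.range (r + 1), (A a).eval (t m) * f (m + a) := by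
  classical
  obtain ⟨P, hPr, hPd, hP⟩ := hf
  have htriv : ∀ s ≤ r, ∃ (H : Polynomial K) (A : ℕ → Polynomial K),
      H ≠ 0 ∧ H.natDegree ≤ s * e ∧ (∀ a, (A a).natDegree ≤ s * e) ∧ ∀ m, m + s ≤ M →
        H.eval (t m) * f (m + s) = ∑ a ∈ Finset.range (r + 1), (A a).eval (t m) * f (m + a) := by
    intro s hs
    refine ⟨1, fun a => if a = s then 1 else 0, one_ne_zero, ?_, fun a => ?_, fun m _ => ?_⟩
    · rw [Polynomial.natDegree_one]
      exact Nat.zero_le _
    · dsimp only
      split_ifs
      · rw [Polynomial.natDegree_one]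
        exact Nat.zero_le _
      · rw [Polynomial.natDegree_zero]
        exact Nat.zero_le _
    · rw [Finset.sum_eq_single s]
      · beta_reduce
        rw [if_pos rfl]
      · intro a _ ha
        beta_reduce
        rw [if_neg ha, Polynomial.eval_zero, zero_mul]
      · intro h
        exact absurd (Finset.mem_range.2 (by omega)) h
  intro s
  induction s with
  | zero => exact htriv 0 (Nat.zero_le _)
  | succ s ih =>
    rcases Nat.lt_or_ge s r with hs | hs
    · exact htriv (s + 1) hs
    obtain ⟨H, A, hH, hHd, hAd, hrep⟩ := ih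
    refine ⟨sb α β (P r * H), fun a => if a = 0 then 0 else
      sb α β (P r * A (a - 1) - A r * P (a - 1)), sb_ne hα _ (mul_ne_zero hPr hH), ?_, fun a => ?_,
      fun m hm => ?_⟩
    · refine (sb_deg _ _ _).trans (Polynomial.natDegree_mul_le.trans ?_)
      have := hPd r
      rw [add_mul]
      omega
    · dsimp only
      split_ifs
      · rw [Polynomial.natDegree_zero]
        exact Nat.zero_le _
      · refine (sb_deg _ _ _).trans ((Polynomial.natDegree_sub_le _ _).trans (max_le ?_ ?_))
        · refine Polynomial.natDegree_mul_le.trans ?_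
          have := hPd r
          have := hAd (a - 1)
          rw [add_mul]
          omega
        · refine Polynomial.natDegree_mul_le.trans ?_
          have := hPd (a - 1)
          have := hAd r
          rw [add_mul]
          omega
    · have h1 := hrep (m + 1) (by omega)
      have h2 := hP (m + 1) (by omega)
      rw [Finset.sum_range_succ] at h1 h2
      rw [Finset.sum_range_succ']
      beta_reduce
      rw [if_pos rfl, Polynomial.eval_zero, zero_mul, add_zero, sb_eval,
        ← ht, Polynomial.eval_mul]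
      have h3 : ∀ a ∈ Finset.range r, (if a + 1 = 0 then (0 : Polynomial K) else
          sb α β (P r * A (a + 1 - 1) - A r * P (a + 1 - 1))).eval (t m) * f (m + (a + 1)) =
            (P r).eval (t (m + 1)) * ((A a).eval (t (m + 1)) * f (m + 1 + a)) -
              (A r).eval (t (m + 1)) * ((P a).eval (t (m + 1)) * f (m + 1 + a)) := by
        intro a _
        rw [if_neg (Nat.succ_ne_zero a), Nat.add_sub_cancel, sb_eval, ← ht, Polynomial.eval_sub,
          Polynomial.eval_mul, Polynomial.eval_mul, show m + (a + 1) = m + 1 + a by omega]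
        ring
      rw [Finset.sum_congr rfl h3, Finset.sum_sub_distrib, ← Finset.mul_sum, ← Finset.mul_sum,
        show m + (s + 1) = m + 1 + s by omega]
      linear_combination ((P r).eval (t (m + 1))) * h1 + ((A r).eval (t (m + 1))) * h2

/-- the bound for the degree -/
def cst (r e k : ℕ) : ℕ := ((r + 1) * (r + 1) + 1) * (4 * (((r + 1) * (r + 1) + k) * e))

/-- **The minors of two solutions** satisfy equations of bounded order and degree. -/
theorem minor {r e M : ℕ} {t : ℕ → K} {α β : K} (ht : ∀ m, t (m + 1) = α * t m + β) (hα : α ≠ 0)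
    {f g : ℕ → K} (hf : NS r e M t f) (hg : NS r e M t g) (k : ℕ) :
    ∃ (s1 : ℕ) (Q : ℕ → Polynomial K), s1 ≤ (r + 1) * (r + 1) ∧ Q s1 ≠ 0 ∧
      (Q s1).natDegree ≤ cst r e k ∧ ∀ m, m + s1 + k ≤ M →
        ∑ s ∈ Finset.range (s1 + 1), (Q s).eval (t m) *
          (f (m + s + k) * g (m + s) - g (m + s + k) * f (m + s)) = 0 := by
  classical
  set R := (r + 1) * (r + 1) with hR
  choose Hf Af hHf hHfd hAfd hrf using state ht hα hf
  choose Hg Ag hHg hHgd hAgd hrg using state ht hα hg
  have hcard : Fintype.card (Fin (r + 1) × Fin (r + 1)) = R := by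
    rw [Fintype.card_prod, Fintype.card_fin]
  set E := 4 * ((R + k) * e) with hE
  let H : ℕ → Polynomial K := fun s => Hf (s + k) * Hg s * (Hg (s + k) * Hf s)
  let B : ℕ → Fin (r + 1) × Fin (r + 1) → Polynomial K := fun s w =>
    Hg (s + k) * Hf s * (Af (s + k) w.1 * Ag s w.2) -
      Hf (s + k) * Hg s * (Ag (s + k) w.2 * Af s w.1)
  have hmono : ∀ s ≤ R, (s + k) * e ≤ (R + k) * e ∧ s * e ≤ (R + k) * e := fun s hs =>
    ⟨Nat.mul_le_mul_right _ (by omega), Nat.mul_le_mul_right _ (by omega)⟩
  have hmul4 : ∀ (p1 p2 p3 p4 : Polynomial K) (b : ℕ), p1.natDegree ≤ b → p2.natDegree ≤ b →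
      p3.natDegree ≤ b → p4.natDegree ≤ b → (p1 * p2 * (p3 * p4)).natDegree ≤ 4 * b := by
    intro p1 p2 p3 p4 b h1 h2 h3 h4
    have h5 := Polynomial.natDegree_mul_le (p := p1 * p2) (q := p3 * p4)
    have h6 := Polynomial.natDegree_mul_le (p := p1) (q := p2)
    have h7 := Polynomial.natDegree_mul_le (p := p3) (q := p4)
    omega
  have hBd : ∀ s ≤ R, ∀ w, (B s w).natDegree ≤ E := by
    intro s hs w
    obtain ⟨h1, h2⟩ := hmono s hs
    refine (Polynomial.natDegree_sub_le _ _).trans (max_le ?_ ?_)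
    · exact hmul4 _ _ _ _ _ ((hHgd _).trans h1) ((hHfd _).trans h2) ((hAfd _ _).trans h1)
        ((hAgd _ _).trans h2)
    · exact hmul4 _ _ _ _ _ ((hHfd _).trans h1) ((hHgd _).trans h2) ((hAgd _ _).trans h1)
        ((hAfd _ _).trans h2)
  have hHd : ∀ s ≤ R, (H s).natDegree ≤ E := by
    intro s hs
    obtain ⟨h1, h2⟩ := hmono s hs
    exact hmul4 _ _ _ _ _ ((hHfd _).trans h1) ((hHgd _).trans h2) ((hHgd _).trans h1)
        ((hHfd _).trans h2)
  have hH0 : ∀ s, H s ≠ 0 := fun s =>
    mul_ne_zero (mul_ne_zero (hHf _) (hHg _)) (mul_ne_zero (hHg _) (hHf _))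
  have hrep : ∀ s m, m + s + k ≤ M → (H s).eval (t m) *
      (f (m + s + k) * g (m + s) - g (m + s + k) * f (m + s)) =
        ∑ w : Fin (r + 1) × Fin (r + 1), (B s w).eval (t m) * (f (m + w.1) * g (m + w.2)) := by
    intro s m hm
    have h1 := hrf (s + k) m (by omega)
    have h2 := hrg s m (by omega)
    have h3 := hrg (s + k) m (by omega)
    have h4 := hrf s m (by omega)
    rw [Finset.sum_range] at h1 h2 h3 h4
    rw [show m + (s + k) = m + s + k by omega] at h1 h3
    have h5 : ∑ w : Fin (r + 1) × Fin (r + 1), (B s w).eval (t m) * (f (m + w.1) * g (m + w.2)) =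
        (Hg (s + k)).eval (t m) * (Hf s).eval (t m) *
          ((∑ a : Fin (r + 1), (Af (s + k) a).eval (t m) * f (m + a)) *
            ∑ b : Fin (r + 1), (Ag s b).eval (t m) * g (m + b)) -
        (Hf (s + k)).eval (t m) * (Hg s).eval (t m) *
          ((∑ a : Fin (r + 1), (Af s a).eval (t m) * f (m + a)) *
            ∑ b : Fin (r + 1), (Ag (s + k) b).eval (t m) * g (m + b)) := by
      rw [Finset.sum_mul_sum, Finset.sum_mul_sum, Finset.mul_sum, Finset.mul_sum,
        ← Finset.sum_sub_distrib, Fintype.sum_prod_type]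
      refine Finset.sum_congr rfl fun a _ => ?_
      rw [Finset.mul_sum, Finset.mul_sum, ← Finset.sum_sub_distrib]
      refine Finset.sum_congr rfl fun b _ => ?_
      simp only [B, Polynomial.eval_sub, Polynomial.eval_mul]
      ring
    rw [h5, ← h1, ← h2, ← h3, ← h4]
    simp only [H, Polynomial.eval_mul]
    ring
  obtain ⟨Q, ⟨s0, hs0⟩, hQd, hQ⟩ := exists_rel (ι := Fin (r + 1) × Fin (r + 1)) R E hcard
    (fun s w => B s w) (fun s w => hBd s (by have := s.2; omega) w)
  -- the last nonzero polynomial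
  let Q' : ℕ → Polynomial K := fun s =>
    if h : s < R + 1 then Q ⟨s, h⟩ else 0
  have hQ'0 : ∀ s, R < s → Q' s = 0 := by
    intro s hs
    simp only [Q']
    rw [dif_neg (by omega)]
  obtain ⟨s1, hs1, hs1R, hmax⟩ : ∃ s1, Q' s1 ≠ 0 ∧ s1 ≤ R ∧ ∀ s, s1 < s → Q' s = 0 := by
    have hne : ((Finset.range (R + 1)).filter fun k => Q' k ≠ 0).Nonempty := by
      refine ⟨s0, Finset.mem_filter.2 ⟨Finset.mem_range.2 ?_, ?_⟩⟩
      · exact s0.2
      · simp only [Q']
        rwa [dif_pos s0.2]
    have hmem := Finset.mem_filter.1 (Finset.max'_mem _ hne)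
    refine ⟨((Finset.range (R + 1)).filter fun k => Q' k ≠ 0).max' hne, hmem.2, ?_, ?_⟩
    · have := Finset.mem_range.1 hmem.1
      omega
    · intro k hk
      by_contra h0
      rcases Nat.lt_or_ge R k with h1 | h1
      · exact h0 (hQ'0 k h1)
      have h1 := Finset.le_max' ((Finset.range (R + 1)).filter fun k => Q' k ≠ 0) k
        (Finset.mem_filter.2 ⟨Finset.mem_range.2 (Nat.lt_succ_of_le h1), h0⟩)
      exact absurd h1 (not_le.2 hk)
  have hQ'd : ∀ s, (Q' s).natDegree ≤ R * E := by
    intro s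
    simp only [Q']
    split_ifs with h
    · exact hQd ⟨s, h⟩
    · rw [Polynomial.natDegree_zero]
      exact Nat.zero_le _
  refine ⟨s1, fun s => Q' s * H s, hs1R, mul_ne_zero hs1 (hH0 _), ?_, fun m hm => ?_⟩
  · refine Polynomial.natDegree_mul_le.trans ?_
    have h1 := hQ'd s1
    have h2 := hHd s1 hs1R
    unfold cst
    rw [← hR, ← hE, add_mul, one_mul]
    omega
  · have h1 : ∀ s ∈ Finset.range (s1 + 1), ((Q' s * H s).eval (t m)) *
        (f (m + s + k) * g (m + s) - g (m + s + k) * f (m + s)) =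
        ∑ w : Fin (r + 1) × Fin (r + 1), (Q' s).eval (t m) * (B s w).eval (t m) *
          (f (m + w.1) * g (m + w.2)) := by
      intro s hs
      rw [Polynomial.eval_mul, mul_assoc, hrep s m (by have := Finset.mem_range.1 hs; omega),
        Finset.mul_sum]
      exact Finset.sum_congr rfl fun w _ => by ring
    rw [Finset.sum_congr rfl h1, Finset.sum_comm]
    refine Finset.sum_eq_zero fun w _ => ?_
    rw [← Finset.sum_mul]
    have h2 : ∑ s ∈ Finset.range (s1 + 1), (Q' s).eval (t m) * (B s w).eval (t m) = 0 := by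
      have h3 : ∑ s ∈ Finset.range (s1 + 1), (Q' s).eval (t m) * (B s w).eval (t m) =
          ∑ s ∈ Finset.range (R + 1), (Q' s).eval (t m) * (B s w).eval (t m) := by
        refine Finset.sum_subset (Finset.range_subset_range.2 (by omega)) fun s hs1 hs2 => ?_
        rw [hmax s (by rw [Finset.mem_range] at hs2; omega), Polynomial.eval_zero, zero_mul]
      rw [h3]
      have h4 := congrArg (Polynomial.eval (t m)) (hQ w)
      rw [Polynomial.eval_finsetSum, Polynomial.eval_zero] at h4
      rw [← h4, Finset.sum_range]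
      refine Finset.sum_congr rfl fun s _ => ?_
      rw [Polynomial.eval_mul]
      simp only [Q']
      rw [dif_pos s.2]
    rw [h2, zero_mul]

end Pool.Agent.Q309.TP
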