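import Pool.Agent.Q309.DU.Uni

/-!
Sequences of points of projective varieties given by linear difference equations with polynomial
coefficients: repetitions in windows of bounded length.
-/

set_option autoImplicit false

namespace Pool.Agent.Q309.TP

open MvPolynomial Filter
open Pool.Agent.Q309.DU
open Pool.Agent.Y377.ST (theta_ne)
open Pool.Agent.Q1.SL

variable {n : ℕ}

/-- The homogeneous coordinates of the points `x 0, ..., x B` of the projective variety of `S`
satisfy nontrivial linear difference equations `∑ P_k (t m) x (m + k) j = 0`, `m ≤ B`, `k ≤ r`,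
whose coefficients are polynomials of degree at most `e` at the points `t m` of an orbit of an
affine map `t ↦ α t + β`; the points `t 0, ..., t B` are different (for instance `t m = m` or
`t m = q ^ m`). -/
structure WSeq (r e : ℕ) (S : Set (MvPolynomial (Fin (n + 1)) ℂ)) (B : ℕ) (t : ℕ → ℂ)
    (x : ℕ → Fin (n + 1) → ℂ) : Prop where
  aff : ∃ α β : ℂ, ∀ m, t (m + 1) = α * t m + β
  inj : ∀ i j, i < j → j ≤ B → t i ≠ t j
  ne : ∀ m ≤ B, x m ≠ 0
  eqn : ∀ j, ∃ P : ℕ → Polynomial ℂ, (∃ k ≤ r, P k ≠ 0) ∧ (∀ k, (P k).natDegree ≤ e) ∧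
    ∀ m ≤ B, ∑ k ∈ Finset.range (r + 1), (P k).eval (t m) * x (m + k) j = 0
  on : ∀ m ≤ B, ∀ F ∈ S, eval (x m) F = 0

/-- The points with the homogeneous coordinates `v`, `w` are equal. -/
def Same (v w : Fin (n + 1) → ℂ) : Prop := ∀ i j, v i * w j = v j * w i

/-- **The limit.** -/
theorem ultra_win {D r e : ℕ} {S : ℕ → Set (MvPolynomial (Fin (n + 1)) ℂ)}
    (hS : ∀ i, ∀ F ∈ S i, ∃ e, e ≤ D ∧ F.IsHomogeneous e) {t : ℕ → ℕ → ℂ}
    {x : ℕ → ℕ → Fin (n + 1) → ℂ} (h : ∀ i, WSeq r e (S i) i (t i) (x i)) :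
    (∃ k m0 : ℕ, 0 < k ∧ ∀ m, m0 ≤ m → ∀ᶠ i in (hyperfilter ℕ : Filter ℕ),
      Same (x i (m + k)) (x i m)) ∨ ∃ d0 m : ℕ, ∀ (G : ℕ → MvPolynomial (Fin (n + 1)) ℂ) (e' : ℕ),
      (∀ᶠ i in (hyperfilter ℕ : Filter ℕ), (G i).IsHomogeneous e') →
      (¬ ∀ᶠ i in (hyperfilter ℕ : Filter ℕ), eval (x i m) (G i) = 0) →
      ∀ᶠ i in (hyperfilter ℕ : Filter ℕ), ∃ p : Fin (n + 1) → Polynomial ℂ,
        (∀ j, (p j).natDegree ≤ d0) ∧ (∀ F ∈ S i, aeval p F = 0) ∧ NonC p ∧
          aeval p (G i) ≠ 0 := by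
  classical
  choose α β hαβ using fun i => (h i).aff
  choose P hP0 hPe hPx using fun i => (h i).eqn
  obtain ⟨θ, hsur, hk⟩ := exists_theta
  have hge : ∀ N : ℕ, ∀ᶠ i in (hyperfilter ℕ : Filter ℕ), N ≤ i := by
    intro N
    have h1 : ∀ᶠ i : ℕ in cofinite, N ≤ i := by
      rw [Nat.cofinite_eq_atTop]
      exact eventually_ge_atTop N
    exact h1.filter_mono hyperfilter_le_cofinite
  have hΘ : ∀ f : ℕ → ℂ, (∃ n, ∀ i, n ≤ i → f i = 0) → θ f = 0 := by
    rintro f ⟨N, hN⟩
    rw [hk]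
    filter_upwards [hge N] with i hi
    exact hN i hi
  let ts : ℕ → ℂ := fun m => θ fun i => t i m
  let xs : ℕ → Fin (n + 1) → ℂ := fun m j => θ fun i => x i m j
  let Ps : Fin (n + 1) → ℕ → Polynomial ℂ := fun j k =>
    ∑ a ∈ Finset.range (e + 1), Polynomial.C (θ fun i => (P i j k).coeff a) * Polynomial.X ^ a
  have hPs : ∀ j k m, (Ps j k).eval (ts m) = θ fun i => (P i j k).eval (t i m) := by
    intro j k m
    have h1 : (fun i => (P i j k).eval (t i m)) =
        ∑ a ∈ Finset.range (e + 1), (fun i => (P i j k).coeff a) * (fun i => t i m) ^ a := by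
      funext i
      rw [Polynomial.eval_eq_sum_range' (n := e + 1) (by have := hPe i j k; omega),
        Finset.sum_apply]
      rfl
    rw [h1, map_sum, Polynomial.eval_finsetSum]
    refine Finset.sum_congr rfl fun a _ => ?_
    rw [Polynomial.eval_mul, Polynomial.eval_C, Polynomial.eval_pow, Polynomial.eval_X, map_mul,
      map_pow]
  have hts : ∀ m, ts (m + 1) = θ α * ts m + θ β := by
    intro m
    change θ (fun i => t i (m + 1)) = _
    have h1 : (fun i => t i (m + 1)) = α * (fun i => t i m) + β := by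
      funext i
      exact hαβ i m
    rw [h1, map_add, map_mul]
  have htinj : Function.Injective ts := by
    have h1 : ∀ a b : ℕ, a < b → ts a ≠ ts b := by
      intro a b hab h2
      obtain ⟨-, h3⟩ := theta_ne hΘ (fun (_ : Unit) i => t i a - t i b) b (fun i hi =>
        ⟨(), sub_ne_zero.2 ((h i).inj a b hab hi)⟩)
      apply h3
      change θ ((fun i => t i a) - fun i => t i b) = 0
      rw [map_sub]
      exact sub_eq_zero.2 h2
    intro a b hab
    by_contra hne
    rcases lt_or_gt_of_ne hne with h2 | h2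
    · exact h1 a b h2 hab
    · exact h1 b a h2 hab.symm
  have hxs0 : ∀ m, xs m ≠ 0 := by
    intro m
    obtain ⟨l, hl⟩ := theta_ne hΘ (fun l i => x i m l) m fun i hi =>
      Function.ne_iff.1 ((h i).ne m hi)
    exact Function.ne_iff.2 ⟨l, hl⟩
  have hP' : ∀ j, ∃ k ≤ r, Ps j k ≠ 0 := by
    intro j
    obtain ⟨⟨k, a⟩, h1⟩ := theta_ne hΘ (fun (q : Fin (r + 1) × Fin (e + 1)) i =>
      (P i j q.1).coeff q.2) 0 (fun i _ => by
        obtain ⟨k, hkr, hk0⟩ := hP0 i j
        obtain ⟨a, ha⟩ : ∃ a, (P i j k).coeff a ≠ 0 := by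
          by_contra hcon
          push Not at hcon
          exact hk0 (Polynomial.ext fun a => by rw [hcon a, Polynomial.coeff_zero])
        have hae : a ≤ e := (Polynomial.le_natDegree_of_ne_zero ha).trans (hPe i j k)
        exact ⟨(⟨k, by omega⟩, ⟨a, by omega⟩), ha⟩)
    refine ⟨k, by omega, fun h0 => h1 ?_⟩
    have h2 := congrArg (fun q => Polynomial.coeff q (a : ℕ)) h0
    simp only [Ps, Polynomial.finsetSum_coeff, Polynomial.coeff_C_mul_X_pow,
      Polynomial.coeff_zero] at h2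
    rw [Finset.sum_eq_single (a : ℕ)] at h2
    · rwa [if_pos rfl] at h2
    · intro b _ hb
      rw [if_neg (Ne.symm hb)]
    · intro h3
      exact absurd (Finset.mem_range.2 a.2) h3
  have hrec : ∀ j m, ∑ k ∈ Finset.range (r + 1), (Ps j k).eval (ts m) * xs (m + k) j = 0 := by
    intro j m
    have h1 : ∑ k ∈ Finset.range (r + 1), (Ps j k).eval (ts m) * xs (m + k) j =
        θ (∑ k ∈ Finset.range (r + 1), (fun i => (P i j k).eval (t i m)) *
          fun i => x i (m + k) j) := by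
      rw [map_sum]
      refine Finset.sum_congr rfl fun k _ => ?_
      rw [map_mul, hPs]
    rw [h1]
    apply hΘ
    refine ⟨m, fun i hi => ?_⟩
    rw [Finset.sum_apply]
    exact hPx i j m hi
  let s : Set (MvPolynomial (Fin (n + 1)) ℂ) :=
    {F' | ∃ F : ℕ → MvPolynomial (Fin (n + 1)) ℂ,
      (∀ᶠ i in (hyperfilter ℕ : Filter ℕ), F i ∈ S i) ∧ F' = limT θ (TD (n + 1) D) F}
  have hdeg : ∀ F : ℕ → MvPolynomial (Fin (n + 1)) ℂ,
      (∀ᶠ i in (hyperfilter ℕ : Filter ℕ), F i ∈ S i) → ∃ e', e' ≤ D ∧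
        ∀ᶠ i in (hyperfilter ℕ : Filter ℕ), (F i).IsHomogeneous e' := fun F hF =>
    exists_deg (D := D) (by
      filter_upwards [hF] with i hi
      exact hS i _ hi)
  have hs : ∀ G ∈ s, ∃ d, G.IsHomogeneous d := by
    rintro _ ⟨F, hF, rfl⟩
    obtain ⟨e', -, he'⟩ := hdeg F hF
    exact ⟨e', limT_homog hk he'⟩
  have hX : ∀ m, ∀ G ∈ s, eval (xs m) G = 0 := by
    rintro m _ ⟨F, hF, rfl⟩
    obtain ⟨e', he'D, he'⟩ := hdeg F hF
    have h1 := eval_limT hk (T := TD (n + 1) D) (F := F) (by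
      filter_upwards [he'] with i hi
      exact support_hom hi he'D) fun i => x i m
    change eval (fun j => θ fun i => x i m j) _ = 0
    rw [h1, hk]
    filter_upwards [hF, hge m] with i hi hmi
    exact (h i).on m hmi _ hi
  rcases seq_dich hts htinj hs hxs0 hP' hrec hX with ⟨k, m0, hk0, hper⟩ | ⟨m, p, hp1, hp2, hp3⟩
  · refine Or.inl ⟨k, m0, hk0, fun m hm => ?_⟩
    have h1 : ∀ u v, ∀ᶠ i in (hyperfilter ℕ : Filter ℕ),
        x i (m + k) u * x i m v = x i (m + k) v * x i m u := by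
      intro u v
      have h2 := hper m hm u v
      have h3 : θ ((fun i => x i (m + k) u) * (fun i => x i m v) -
          (fun i => x i (m + k) v) * fun i => x i m u) = 0 := by
        rw [map_sub, map_mul, map_mul]
        exact sub_eq_zero.2 h2
      rw [hk] at h3
      filter_upwards [h3] with i hi
      exact sub_eq_zero.1 hi
    unfold Same
    rw [Filter.eventually_all]
    intro u
    rw [Filter.eventually_all]
    exact h1 u
  · refine Or.inr ⟨Finset.univ.sup fun j => (p j).natDegree, m, fun G e' hG hGne => ?_⟩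
    have hev := eval_limT hk (T := TD (n + 1) e') (F := G) (by
      filter_upwards [hG] with i hi
      exact support_hom hi le_rfl) fun i => x i m
    have hne : aeval p (limT θ (TD (n + 1) e') G) ≠ 0 := by
      intro h0
      apply hGne
      rw [← hk, ← hev]
      have h1 := congrArg (Polynomial.eval 1) h0
      rw [Polynomial.eval_zero, poly_eval, hp2] at h1
      exact h1
    obtain ⟨j, k, u, v, huv⟩ := hp3
    have hnc : NonC p := ⟨u, v, j, k, huv⟩
    have h1 := los_curve hsur hk p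
      (fun j => Finset.le_sup (f := fun j => (p j).natDegree) (Finset.mem_univ j)) hnc
      (S := S) (T := TD (n + 1) D) (fun i F hF => by
        obtain ⟨e1, he1, he1'⟩ := hS i F hF
        exact support_hom he1' he1)
      (fun F hF => hp1 _ ⟨F, hF, rfl⟩) (T' := TD (n + 1) e') (G := G) (by
        filter_upwards [hG] with i hi
        exact support_hom hi le_rfl) hne
    filter_upwards [h1] with i hi
    obtain ⟨q, hq1, hq2, hq3, hq4, -⟩ := hi
    exact ⟨q, hq1, hq2, hq3, hq4⟩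


/-- **Windows, uniformly in the variety.** -/
theorem win_uniform (n D r e R : ℕ) : ∃ d : ℕ, ∀ S : Set (MvPolynomial (Fin (n + 1)) ℂ),
    (∀ F ∈ S, ∃ e, e ≤ D ∧ F.IsHomogeneous e) → ∀ G : MvPolynomial (Fin (n + 1)) ℂ,
      (∃ e, e ≤ D ∧ G.IsHomogeneous e) → RatIn S G d → ∀ (t : ℕ → ℂ) (x : ℕ → Fin (n + 1) → ℂ),
        WSeq r e S d t x → (∀ m ≤ d, eval (x m) G ≠ 0) →
          ∃ k m0, 0 < k ∧ m0 + R + k ≤ d ∧ ∀ i ≤ R, Same (x (m0 + i + k)) (x (m0 + i)) := by
  classical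
  by_contra hcon
  push Not at hcon
  choose S hS G hGd hrat t x hx hG hper using hcon
  rcases ultra_win hS hx with ⟨k, m0, hk, hw⟩ | ⟨d0, m, hm⟩
  · have h1 : ∀ᶠ i in (hyperfilter ℕ : Filter ℕ), ∀ j ∈ Finset.range (R + 1),
        Same (x i (m0 + j + k)) (x i (m0 + j)) := by
      rw [Filter.eventually_all_finset]
      intro j _
      exact hw (m0 + j) (by omega)
    obtain ⟨i, hi1, hi2⟩ := (h1.and (hyper_ge (m0 + R + k))).exists
    obtain ⟨j, hj, hne⟩ := hper i k m0 hk hi2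
    exact hne (hi1 j (Finset.mem_range.2 (by omega)))
  · obtain ⟨e', he', hhe⟩ := exists_deg (F := G) (D := D) (Eventually.of_forall hGd)
    have h1 := hm G e' hhe (fun h0 => by
      obtain ⟨i, hi1, hi2⟩ := (h0.and (hyper_ge m)).exists
      exact hG i m hi2 hi1)
    obtain ⟨i, ⟨p, hp1, hp2, hp3, hp4⟩, hi⟩ := (h1.and (hyper_ge (max d0 m))).exists
    exact hp4 (hrat i p (fun j => (hp1 j).trans ((le_max_left _ _).trans hi)) hp2 hp3)

/-- **Windows, for one variety** and forms of arbitrary degree. -/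
theorem win_special (S : Set (MvPolynomial (Fin (n + 1)) ℂ))
    (hS : ∀ F ∈ S, ∃ e, F.IsHomogeneous e) (r e R : ℕ) : ∃ d : ℕ,
    ∀ G : MvPolynomial (Fin (n + 1)) ℂ, (∃ e, G.IsHomogeneous e) → RatIn S G d →
      ∀ (t : ℕ → ℂ) (x : ℕ → Fin (n + 1) → ℂ), WSeq r e S d t x → (∀ m ≤ d, eval (x m) G ≠ 0) →
        ∃ k m0, 0 < k ∧ m0 + R + k ≤ d ∧ ∀ i ≤ R, Same (x (m0 + i + k)) (x (m0 + i)) := by
  classical
  obtain ⟨S0, hS0, hS0'⟩ := exists_finite_forms S
  obtain ⟨D, hD⟩ : ∃ D, ∀ F ∈ S0, ∃ e, e ≤ D ∧ F.IsHomogeneous e := by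
    refine ⟨S0.sup fun F => F.totalDegree, fun F hF => ?_⟩
    obtain ⟨e, he⟩ := hS F (hS0 F hF)
    by_cases h0 : F = 0
    · exact ⟨0, Nat.zero_le _, h0 ▸ isHomogeneous_zero _ _ _⟩
    · refine ⟨e, ?_, he⟩
      rw [← he.totalDegree h0]
      exact Finset.le_sup (f := fun F : MvPolynomial (Fin (n + 1)) ℂ => F.totalDegree) hF
  by_contra hcon
  push Not at hcon
  choose G hGd hrat t x hx hG hper using hcon
  rcases ultra_win (S := fun _ => (S0 : Set (MvPolynomial (Fin (n + 1)) ℂ)))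
    (D := D) (fun i F hF => hD F hF) (t := t) (x := x) (r := r) (e := e) (fun i =>
      { aff := (hx i).aff
        inj := (hx i).inj
        ne := (hx i).ne
        eqn := (hx i).eqn
        on := fun m hm F hF => (hx i).on m hm F (hS0 F hF) }) with
    ⟨k, m0, hk, hw⟩ | ⟨d0, m, hm⟩
  · have h1 : ∀ᶠ i in (hyperfilter ℕ : Filter ℕ), ∀ j ∈ Finset.range (R + 1),
        Same (x i (m0 + j + k)) (x i (m0 + j)) := by
      rw [Filter.eventually_all_finset]
      intro j _
      exact hw (m0 + j) (by omega)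
    obtain ⟨i, hi1, hi2⟩ := (h1.and (hyper_ge (m0 + R + k))).exists
    obtain ⟨j, hj, hne⟩ := hper i k m0 hk hi2
    exact hne (hi1 j (Finset.mem_range.2 (by omega)))
  · obtain ⟨W, hW1, hW2⟩ := exists_finite_forms {g : MvPolynomial (Fin (n + 1)) ℂ |
      (∃ e, g.IsHomogeneous e) ∧ ∀ p : Fin (n + 1) → Polynomial ℂ, (∀ j, (p j).natDegree ≤ d0) →
        (∀ F ∈ S, aeval p F = 0) → NonC p → aeval p g = 0}
    have hWx : ∀ g ∈ W, ∀ᶠ i in (hyperfilter ℕ : Filter ℕ), eval (x i m) g = 0 := by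
      intro g hg
      obtain ⟨⟨e', he'⟩, hg2⟩ := hW1 g hg
      by_contra hno
      have h1 := hm (fun _ => g) e' (Eventually.of_forall fun _ => he') hno
      obtain ⟨i, p, hp1, hp2, hp3, hp4⟩ := h1.exists
      exact hp4 (hg2 p hp1 (hS0' _ p hp2) hp3)
    have hWx' : ∀ᶠ i in (hyperfilter ℕ : Filter ℕ), ∀ g ∈ W, eval (x i m) g = 0 := by
      rw [Filter.eventually_all_finset]
      exact hWx
    obtain ⟨i, h2, hi⟩ := (hWx'.and (hyper_ge (max d0 m))).exists
    have hmi : m ≤ i := (le_max_right _ _).trans hi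
    refine hG i m hmi ?_
    rw [← aeval_ev]
    exact hW2 ℂ (x i m) (fun g hg => by rw [aeval_ev]; exact h2 g hg) (G i) ⟨hGd i,
      fun p hp1 hp2 hp3 => hrat i p (fun j => (hp1 j).trans ((le_max_left _ _).trans hi))
        hp2 hp3⟩

end Pool.Agent.Q309.TP
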