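import Pool.Agent.Q309.TP.Win
import Pool.Agent.Q309.TP.Clo

/-!
Sequences of points of projective varieties given by linear difference equations with polynomial
coefficients: bounds for the number of different points.
-/

set_option autoImplicit false

namespace Pool.Agent.Q309.TP

open MvPolynomial Filter
open Pool.Agent.Q309.DU
open Pool.Agent.Q1.SL

variable {n : ℕ}

theorem Same.symm {v w : Fin (n + 1) → ℂ} (h : Same v w) : Same w v := fun i j => by
  have := h j i
  linear_combination this

theorem Same.trans {u v w : Fin (n + 1) → ℂ} (hv : v ≠ 0) (h1 : Same u v) (h2 : Same v w) :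
    Same u w := by
  obtain ⟨l, hl⟩ := Function.ne_iff.1 hv
  intro i j
  apply mul_left_cancel₀ hl
  have e1 := h1 i l
  have e2 := h1 j l
  have e3 := h2 i l
  have e4 := h2 j l
  have e5 := h1 i j
  have e6 := h2 i j
  linear_combination w j * e1 - w i * e2 + u l * e6

theorem WSeq.window {r e M : ℕ} {S : Set (MvPolynomial (Fin (n + 1)) ℂ)} {t : ℕ → ℂ}
    {x : ℕ → Fin (n + 1) → ℂ} (h : WSeq r e S M t x) {w d : ℕ} (hw : w + d ≤ M) :
    WSeq r e S d (fun m => t (w + m)) fun m => x (w + m) := by
  obtain ⟨α, β, haff⟩ := h.aff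
  refine ⟨⟨α, β, fun m => haff (w + m)⟩, fun i j hij hj => h.inj _ _ (by omega) (by omega),
    fun m hm => h.ne _ (by omega), fun j => ?_, fun m hm => h.on _ (by omega)⟩
  obtain ⟨P, h1, h2, h3⟩ := h.eqn j
  refine ⟨P, h1, h2, fun m hm => ?_⟩
  have h4 := h3 (w + m) (by omega)
  rw [← h4]
  exact Finset.sum_congr rfl fun k _ => by rw [Nat.add_assoc]

/-- **From windows to the number of points.** -/
theorem count_pts {r e M d : ℕ} {S : Set (MvPolynomial (Fin (n + 1)) ℂ)} {t : ℕ → ℂ}
    {x : ℕ → Fin (n + 1) → ℂ} (h : WSeq r e S M t x)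
    (hwin : ∀ w, w + d ≤ M → ∃ k m0, 0 < k ∧ m0 + (r + 1) * (r + 1) + k ≤ d ∧
      ∀ i ≤ (r + 1) * (r + 1), Same (x (w + (m0 + i + k))) (x (w + (m0 + i)))) :
    ∃ I : Finset ℕ, I.card ≤ d + (n + 1) * (n + 1) * (d + 1) * cst r e d * (d + 1) + 2 ∧
      ∀ m ≤ M, ∃ i ∈ I, i ≤ m ∧ Same (x i) (x m) := by
  classical
  obtain ⟨α, β, haff⟩ := h.aff
  -- the new points
  let T : Finset ℕ := (Finset.range (M + 1)).filter fun m => ∀ m' < m, ¬ Same (x m') (x m)
  have hT : ∀ m ≤ M, ∃ i ∈ T, i ≤ m ∧ Same (x i) (x m) := by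
    intro m
    induction m using Nat.strong_induction_on with
    | _ m ih =>
      intro hm
      by_cases hnew : ∀ m' < m, ¬ Same (x m') (x m)
      · exact ⟨m, Finset.mem_filter.2 ⟨Finset.mem_range.2 (by omega), hnew⟩, le_rfl,
          fun i j => mul_comm _ _⟩
      · push Not at hnew
        obtain ⟨m', hm', hs⟩ := hnew
        obtain ⟨i, hi, him, hsi⟩ := ih m' hm' (by omega)
        exact ⟨i, hi, by omega, hsi.trans (h.ne m' (by omega)) hs⟩
  refine ⟨T, ?_, hT⟩
  rcases Nat.lt_or_ge M 2 with hM | hM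
  · have h1 : T.card ≤ M + 1 := by
      refine (Finset.card_filter_le _ _).trans ?_
      rw [Finset.card_range]
    have h2 : 0 ≤ (n + 1) * (n + 1) * (d + 1) * cst r e d * (d + 1) := Nat.zero_le _
    omega
  have hα : α ≠ 0 := by
    rintro rfl
    have h1 : t 1 = β := by simpa using haff 0
    have h2 : t 2 = β := by simpa using haff 1
    exact h.inj 1 2 (by norm_num) hM (by rw [h1, h2])
  have hNS : ∀ u, NS r e M t fun m => x m u := by
    intro u
    obtain ⟨P, h1, h2, h3⟩ := h.eqn u
    exact ns_of haff hα h1 h2 h3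
  choose s1 Q hs1 hQ0 hQd hQ using fun (w : Fin (n + 1) × Fin (n + 1) × Fin (d + 1)) =>
    minor haff hα (hNS w.1) (hNS w.2.1) w.2.2
  -- the bad indices
  let Z : Finset ℕ := Finset.univ.biUnion fun w : Fin (n + 1) × Fin (n + 1) × Fin (d + 1) =>
    (Finset.range (M + 1)).filter fun m => (Q w (s1 w)).eval (t m) = 0
  have hcstmono : ∀ k ≤ d, cst r e k ≤ cst r e d := by
    intro k hk
    unfold cst
    exact Nat.mul_le_mul_left _ (Nat.mul_le_mul_left _ (Nat.mul_le_mul_right _ (by omega)))
  have hZ : Z.card ≤ (n + 1) * (n + 1) * (d + 1) * cst r e d := by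
    refine (Finset.card_biUnion_le_card_mul _ _ (cst r e d) fun w _ => ?_).trans ?_
    · have h1 : ((Finset.range (M + 1)).filter fun m => (Q w (s1 w)).eval (t m) = 0).card ≤
          (Q w (s1 w)).roots.toFinset.card := by
        refine Finset.card_le_card_of_injOn t (fun m hm => ?_) fun a ha b hb hab => ?_
        · rw [Finset.mem_coe, Multiset.mem_toFinset, Polynomial.mem_roots (hQ0 w)]
          exact (Finset.mem_filter.1 hm).2
        · have h2 := Finset.mem_range.1 (Finset.mem_filter.1 ha).1
          have h3 := Finset.mem_range.1 (Finset.mem_filter.1 hb).1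
          by_contra hne
          rcases lt_or_gt_of_ne hne with h4 | h4
          · exact h.inj a b h4 (by omega) hab
          · exact h.inj b a h4 (by omega) hab.symm
      refine h1.trans ((Multiset.toFinset_card_le _).trans ((Polynomial.card_roots' _).trans
        ((hQd w).trans (hcstmono _ (by have := w.2.2.2; omega)))))
    · rw [Finset.card_univ, Fintype.card_prod, Fintype.card_prod, Fintype.card_fin,
        Fintype.card_fin, ← mul_assoc]
  have hsub : T ⊆ Finset.range d ∪ Z.biUnion fun z => Finset.Icc z (z + d) := by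
    intro m hm
    obtain ⟨hm1, hm2⟩ := Finset.mem_filter.1 hm
    have hmM : m ≤ M := by
      have := Finset.mem_range.1 hm1
      omega
    rw [Finset.mem_union]
    by_contra hcon
    push Not at hcon
    obtain ⟨hc1, hc2⟩ := hcon
    have hmd : d ≤ m := by
      by_contra h0
      exact hc1 (Finset.mem_range.2 (by omega))
    obtain ⟨k, m0, hk, hkd, hper⟩ := hwin (m - d) (by omega)
    have hgood : ∀ z, m - d ≤ z → z ≤ m → ∀ w : Fin (n + 1) × Fin (n + 1) × Fin (d + 1),
        (Q w (s1 w)).eval (t z) ≠ 0 := by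
      intro z hz1 hz2 w h0
      apply hc2
      rw [Finset.mem_biUnion]
      refine ⟨z, ?_, Finset.mem_Icc.2 ⟨hz2, by omega⟩⟩
      rw [Finset.mem_biUnion]
      exact ⟨w, Finset.mem_univ _, Finset.mem_filter.2 ⟨Finset.mem_range.2 (by omega), h0⟩⟩
    have hprop : ∀ u v, ∀ i, m - d + m0 + i + k ≤ m →
        x (m - d + m0 + i + k) u * x (m - d + m0 + i) v -
          x (m - d + m0 + i + k) v * x (m - d + m0 + i) u = 0 := by
      intro u v i
      induction i using Nat.strong_induction_on with
      | _ i ih =>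
        intro him
        rcases Nat.lt_or_ge ((r + 1) * (r + 1)) i with hi | hi
        · set w : Fin (n + 1) × Fin (n + 1) × Fin (d + 1) := (u, v, ⟨k, by omega⟩) with hw
          have hs := hs1 w
          obtain ⟨l, hl⟩ : ∃ l, i = l + s1 w := ⟨i - s1 w, by omega⟩
          have h1 := hQ w (m - d + m0 + l) (by
            change m - d + m0 + l + s1 w + k ≤ M
            omega)
          rw [Finset.sum_range_succ, Finset.sum_eq_zero, zero_add] at h1
          · rcases mul_eq_zero.1 h1 with h2 | h2
            · exact absurd h2 (hgood _ (by omega) (by omega) w)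
            · have h3 : m - d + m0 + l + s1 w = m - d + m0 + i := by omega
              rw [h3] at h2
              exact h2
          · intro s hs2
            have hs3 := Finset.mem_range.1 hs2
            have h3 := ih (l + s) (by omega) (by omega)
            have h4 : m - d + m0 + (l + s) = m - d + m0 + l + s := by omega
            rw [h4] at h3
            change _ * (x (m - d + m0 + l + s + k) u * x (m - d + m0 + l + s) v -
              x (m - d + m0 + l + s + k) v * x (m - d + m0 + l + s) u) = 0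
            rw [h3, mul_zero]
        · have h1 := hper i hi u v
          rw [show m - d + (m0 + i + k) = m - d + m0 + i + k by omega,
            show m - d + (m0 + i) = m - d + m0 + i by omega] at h1
          exact sub_eq_zero.2 h1
    refine hm2 (m - k) (by omega) ?_
    intro u v
    have h1 := hprop u v (m - k - (m - d + m0)) (by omega)
    have h2 : m - d + m0 + (m - k - (m - d + m0)) = m - k := by omega
    rw [h2, show m - k + k = m by omega] at h1
    linear_combination -h1
  have h1 := Finset.card_le_card hsub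
  have h2 := Finset.card_union_le (Finset.range d) (Z.biUnion fun z => Finset.Icc z (z + d))
  have h3 : (Z.biUnion fun z => Finset.Icc z (z + d)).card ≤ Z.card * (d + 1) := by
    refine Finset.card_biUnion_le_card_mul _ _ _ fun z _ => ?_
    rw [Nat.card_Icc]
    omega
  have h4 := Nat.mul_le_mul_right (d + 1) hZ
  rw [Finset.card_range] at h2
  omega

/-- **The number of points, uniformly in the variety.** -/
theorem pts_uniform (n D r e : ℕ) : ∃ N : ℕ, ∀ S : Set (MvPolynomial (Fin (n + 1)) ℂ),
    (∀ F ∈ S, ∃ e, e ≤ D ∧ F.IsHomogeneous e) → ∀ G : MvPolynomial (Fin (n + 1)) ℂ,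
      (∃ e, e ≤ D ∧ G.IsHomogeneous e) → RatIn S G N → ∀ (M : ℕ) (t : ℕ → ℂ)
        (x : ℕ → Fin (n + 1) → ℂ), WSeq r e S M t x → (∀ m ≤ M, eval (x m) G ≠ 0) →
          ∃ I : Finset ℕ, I.card ≤ N ∧ ∀ m ≤ M, ∃ i ∈ I, i ≤ m ∧ Same (x i) (x m) := by
  obtain ⟨d, hd⟩ := win_uniform n D r e ((r + 1) * (r + 1))
  refine ⟨d + (n + 1) * (n + 1) * (d + 1) * cst r e d * (d + 1) + 2,
    fun S hS G hGd hrat M t x hx hG => ?_⟩
  refine count_pts hx fun w hw => ?_
  exact hd S hS G hGd (fun p hp1 hp2 hp3 => hrat p (fun j => (hp1 j).trans (by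
    rw [Nat.add_assoc]
    exact Nat.le_add_right _ _)) hp2 hp3) _ _
    (hx.window hw) fun m hm => hG _ (by omega)

/-- **The number of points, for one variety.** -/
theorem pts_special (S : Set (MvPolynomial (Fin (n + 1)) ℂ))
    (hS : ∀ F ∈ S, ∃ e, F.IsHomogeneous e) (r e : ℕ) : ∃ N : ℕ,
    ∀ G : MvPolynomial (Fin (n + 1)) ℂ, (∃ e, G.IsHomogeneous e) → RatIn S G N → ∀ (M : ℕ)
      (t : ℕ → ℂ) (x : ℕ → Fin (n + 1) → ℂ), WSeq r e S M t x → (∀ m ≤ M, eval (x m) G ≠ 0) →
          ∃ I : Finset ℕ, I.card ≤ N ∧ ∀ m ≤ M, ∃ i ∈ I, i ≤ m ∧ Same (x i) (x m) := by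
  obtain ⟨d, hd⟩ := win_special S hS r e ((r + 1) * (r + 1))
  refine ⟨d + (n + 1) * (n + 1) * (d + 1) * cst r e d * (d + 1) + 2,
    fun G hGd hrat M t x hx hG => ?_⟩
  refine count_pts hx fun w hw => ?_
  exact hd G hGd (fun p hp1 hp2 hp3 => hrat p (fun j => (hp1 j).trans (by
    rw [Nat.add_assoc]
    exact Nat.le_add_right _ _)) hp2 hp3) _ _
    (hx.window hw) fun m hm => hG _ (by omega)

end Pool.Agent.Q309.TP
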