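import Pool.Agent.Q1.SL.Unif
import Pool.Agent.TH143.HE.Spec

/-!
Smooth plane curves of degree at least three contain no rational curves.
-/

set_option autoImplicit false

namespace Pool.Agent.Q309.TP

open MvPolynomial
open Pool.Agent.Q1.SL

variable {N : ℕ}

theorem chain_rule (q : Fin N → Polynomial ℂ) (F : MvPolynomial (Fin N) ℂ) :
    Polynomial.derivative (aeval q F) =
      ∑ i, aeval q (pderiv i F) * Polynomial.derivative (q i) := by
  classical
  induction F using MvPolynomial.induction_on with
  | C a =>
    rw [show (aeval q (C a : MvPolynomial (Fin N) ℂ)) = Polynomial.C a by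
      rw [aeval_C]
      rfl, Polynomial.derivative_C]
    symm
    refine Finset.sum_eq_zero fun i _ => ?_
    rw [pderiv_C, map_zero, zero_mul]
  | add F G hF hG =>
    rw [map_add, Polynomial.derivative_add, hF, hG, ← Finset.sum_add_distrib]
    refine Finset.sum_congr rfl fun i _ => ?_
    rw [map_add, map_add, add_mul]
  | mul_X F j hF =>
    rw [map_mul, aeval_X, Polynomial.derivative_mul, hF]
    have h1 : ∀ i, aeval q (pderiv i (F * X j)) * Polynomial.derivative (q i) =
        aeval q (pderiv i F) * Polynomial.derivative (q i) * q j +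
          if i = j then aeval q F * Polynomial.derivative (q i) else 0 := by
      intro i
      rw [pderiv_mul, pderiv_X, map_add, map_mul, map_mul, aeval_X]
      by_cases h : i = j
      · subst h
        rw [if_pos rfl, Pi.single_eq_same, map_one]
        ring
      · rw [if_neg h, Pi.single_eq_of_ne' h, map_zero]
        ring
    rw [Finset.sum_congr rfl fun i _ => h1 i, Finset.sum_add_distrib, Finset.sum_ite_eq',
      if_pos (Finset.mem_univ _), Finset.sum_mul]

theorem coeff_mono (q : Fin N → Polynomial ℂ) {d : ℕ} (hd : ∀ i, (q i).natDegree ≤ d)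
    (s : Fin N → ℕ) (A : Finset (Fin N)) :
    (∏ i ∈ A, q i ^ s i).natDegree ≤ (∑ i ∈ A, s i) * d ∧
      (∏ i ∈ A, q i ^ s i).coeff ((∑ i ∈ A, s i) * d) = ∏ i ∈ A, (q i).coeff d ^ s i := by
  classical
  induction A using Finset.induction_on with
  | empty => simp
  | insert a A ha ih =>
    obtain ⟨h1, h2⟩ := ih
    have h3 : (q a ^ s a).natDegree ≤ s a * d :=
      Polynomial.natDegree_pow_le.trans (Nat.mul_le_mul_left _ (hd a))
    rw [Finset.prod_insert ha, Finset.sum_insert ha, Finset.prod_insert ha, add_mul]
    exact ⟨Polynomial.natDegree_mul_le.trans (Nat.add_le_add h3 h1), by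
      rw [Polynomial.coeff_mul_add_eq_of_natDegree_le h3 h1, h2,
        Polynomial.coeff_pow_of_natDegree_le (hd a)]⟩

theorem coeff_top (q : Fin N → Polynomial ℂ) {d : ℕ} (hd : ∀ i, (q i).natDegree ≤ d) {m : ℕ}
    {G : MvPolynomial (Fin N) ℂ} (hG : G.IsHomogeneous m) :
    (aeval q G : Polynomial ℂ).coeff (m * d) = eval (fun i => (q i).coeff d) G := by
  classical
  rw [aeval_def, eval₂_eq', Polynomial.finsetSum_coeff, eval_eq']
  refine Finset.sum_congr rfl fun s hs => ?_
  have h1 : ∑ i, s i = m := by
    have h2 := hG (mem_support_iff.1 hs)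
    rw [Finsupp.weight_apply, Finsupp.sum_fintype] at h2
    · simpa using h2
    · simp
  have h2 := (coeff_mono q hd s Finset.univ).2
  rw [h1] at h2
  change (Polynomial.C (coeff s G) * _).coeff _ = _
  rw [Polynomial.coeff_C_mul, h2]

/-- The plane curve `F = 0` is smooth. -/
def Smooth (F : MvPolynomial (Fin 3) ℂ) : Prop :=
  ∀ v : Fin 3 → ℂ, v ≠ 0 → ∃ i, eval v (pderiv i F) ≠ 0

/-- **Smooth plane curves** of degree at least three contain no nonconstant rational curves. -/
theorem plane {F : MvPolynomial (Fin 3) ℂ} {D : ℕ} (hF : F.IsHomogeneous D) (hD : 3 ≤ D)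
    (hsm : Smooth F) {p : Fin 3 → Polynomial ℂ} (hp : aeval p F = 0) : ¬ NonC p := by
  classical
  rintro ⟨u1, v1, j0, k0, hne⟩
  -- remove the common zeros
  obtain ⟨q, hq, hqg⟩ := Finset.extract_gcd (s := (Finset.univ : Finset (Fin 3))) p
    ⟨0, Finset.mem_univ _⟩
  set g := Finset.univ.gcd p with hg
  have hpq : ∀ j, p j = g * q j := fun j => hq j (Finset.mem_univ j)
  have hg0 : g ≠ 0 := by
    intro h0
    apply hne
    rw [hpq j0, hpq k0, h0]
    simp
  have hqF : aeval q F = 0 := by
    have h1 : aeval p F = g ^ D * aeval q F := by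
      have h2 := Pool.Agent.TH143.HE.eval₂_smul_homog (algebraMap ℂ (Polynomial ℂ)) g q hF
      rw [aeval_def, aeval_def, ← h2]
      exact congrArg (fun w => eval₂ (algebraMap ℂ (Polynomial ℂ)) w F) (funext hpq)
    rw [hp] at h1
    exact (mul_eq_zero.1 h1.symm).resolve_left (pow_ne_zero _ hg0)
  have hz : ∀ z, (fun j => (q j).eval z) ≠ 0 := by
    intro z h0
    have h1 : (Polynomial.X - Polynomial.C z) ∣ Finset.univ.gcd q := by
      refine Finset.dvd_gcd fun j _ => ?_
      rw [Polynomial.dvd_iff_isRoot]
      exact congrFun h0 j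
    rw [hqg] at h1
    exact Polynomial.not_isUnit_X_sub_C z (isUnit_of_dvd_one h1)
  -- unimodular vectors
  have huni : ∀ w : Fin 3 → Polynomial ℂ, (∀ z, (fun j => (w j).eval z) ≠ 0) →
      ∃ a : Fin 3 → Polynomial ℂ, ∑ i, a i * w i = 1 := by
    intro w hw
    have h1 : Ideal.span (Set.range w) = ⊤ := by
      by_contra hcon
      obtain ⟨b, hb⟩ := (IsPrincipalIdealRing.principal (Ideal.span (Set.range w))).principal
      have hb' : ¬ IsUnit b := by
        intro hu
        apply hcon
        rw [hb]
        exact Ideal.span_singleton_eq_top.2 hu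
      have hdiv : ∀ i, b ∣ w i := by
        intro i
        have h2 : w i ∈ Ideal.span (Set.range w) := Ideal.subset_span ⟨i, rfl⟩
        rw [hb] at h2
        exact Ideal.mem_span_singleton.1 h2
      by_cases hb0 : b = 0
      · apply hw 0
        funext i
        have h2 := hdiv i
        rw [hb0, zero_dvd_iff] at h2
        change (w i).eval 0 = 0
        rw [h2, Polynomial.eval_zero]
      · have hdeg : b.degree ≠ 0 := fun h0 => hb' (Polynomial.isUnit_iff_degree_eq_zero.2 h0)
        obtain ⟨z, hz⟩ := IsAlgClosed.exists_root b hdeg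
        apply hw z
        funext i
        obtain ⟨c, hc⟩ := hdiv i
        change (w i).eval z = 0
        rw [hc, Polynomial.eval_mul, hz.eq_zero, zero_mul]
    have h2 : (1 : Polynomial ℂ) ∈ Ideal.span (Set.range w) := h1 ▸ Submodule.mem_top
    obtain ⟨a, ha⟩ := (Ideal.mem_span_range_iff_exists_fun).1 h2
    exact ⟨a, ha⟩
  -- the degree
  set d := Finset.univ.sup fun j => (q j).natDegree with hd
  have hqd : ∀ j, (q j).natDegree ≤ d := fun j =>
    Finset.le_sup (f := fun j => (q j).natDegree) (Finset.mem_univ j)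
  have hc : (fun i => (q i).coeff d) ≠ 0 := by
    obtain ⟨j, -, hj⟩ := Finset.exists_mem_eq_sup (Finset.univ : Finset (Fin 3))
      Finset.univ_nonempty fun j => (q j).natDegree
    intro h0
    have h1 := congrFun h0 j
    change (q j).coeff d = 0 at h1
    rw [hd, hj] at h1
    have h2 : q j = 0 := Polynomial.leadingCoeff_eq_zero.1 h1
    have h3 : d = 0 := by
      rw [hd, hj, h2, Polynomial.natDegree_zero]
    apply hz 0
    funext i
    have h4 : (q i).natDegree ≤ 0 := h3 ▸ hqd i
    rw [Polynomial.eq_C_of_natDegree_le_zero h4, Polynomial.eval_C, ← h3]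
    exact congrFun h0 i
  -- the gradient
  let v : Fin 3 → Polynomial ℂ := fun i => aeval q (pderiv i F)
  have hv1 : ∑ i, v i * Polynomial.derivative (q i) = 0 := by
    rw [← chain_rule, hqF, Polynomial.derivative_zero]
  have hv2 : ∑ i, v i * q i = 0 := by
    have h1 := congrArg (aeval q) hF.sum_X_mul_pderiv
    rw [map_sum, map_nsmul, hqF, smul_zero] at h1
    rw [← h1]
    refine Finset.sum_congr rfl fun i _ => ?_
    rw [map_mul, aeval_X, mul_comm]
  have hvz : ∀ z, (fun j => (v j).eval z) ≠ 0 := by
    intro z h0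
    obtain ⟨i, hi⟩ := hsm _ (hz z)
    apply hi
    have h1 := congrFun h0 i
    change (v i).eval z = 0 at h1
    rw [← h1]
    exact (poly_eval _ _ _).symm
  obtain ⟨a, ha⟩ := huni v hvz
  let w : Fin 3 → Polynomial ℂ := ![q 1 * Polynomial.derivative (q 2) -
    q 2 * Polynomial.derivative (q 1), q 2 * Polynomial.derivative (q 0) -
    q 0 * Polynomial.derivative (q 2), q 0 * Polynomial.derivative (q 1) -
    q 1 * Polynomial.derivative (q 0)]
  have hw0 : w 0 = q 1 * Polynomial.derivative (q 2) - q 2 * Polynomial.derivative (q 1) := rfl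
  have hw1 : w 1 = q 2 * Polynomial.derivative (q 0) - q 0 * Polynomial.derivative (q 2) := rfl
  have hw2 : w 2 = q 0 * Polynomial.derivative (q 1) - q 1 * Polynomial.derivative (q 0) := rfl
  rw [Fin.sum_univ_three] at hv1 hv2 ha
  set h := a 0 * w 0 + a 1 * w 1 + a 2 * w 2 with hh
  have e01 : v 0 * w 1 = v 1 * w 0 := by
    rw [hw0, hw1]
    linear_combination (q 2) * hv1 - (Polynomial.derivative (q 2)) * hv2
  have e02 : v 0 * w 2 = v 2 * w 0 := by
    rw [hw0, hw2]
    linear_combination -(q 1) * hv1 + (Polynomial.derivative (q 1)) * hv2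
  have e12 : v 1 * w 2 = v 2 * w 1 := by
    rw [hw1, hw2]
    linear_combination (q 0) * hv1 - (Polynomial.derivative (q 0)) * hv2
  have hw : ∀ i, w i = h * v i := by
    intro i
    fin_cases i
    · change w 0 = h * v 0
      rw [hh]
      linear_combination (-w 0) * ha - a 1 * e01 - a 2 * e02
    · change w 1 = h * v 1
      rw [hh]
      linear_combination (-w 1) * ha + a 0 * e01 - a 2 * e12
    · change w 2 = h * v 2
      rw [hh]
      linear_combination (-w 2) * ha + a 0 * e02 + a 1 * e12
  -- the cross product is not zero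
  have hh0 : h ≠ 0 := by
    intro h0
    obtain ⟨b, hb⟩ := huni q hz
    rw [Fin.sum_univ_three] at hb
    have f0 : w 0 = 0 := by rw [hw, h0, zero_mul]
    have f1 : w 1 = 0 := by rw [hw, h0, zero_mul]
    have f2 : w 2 = 0 := by rw [hw, h0, zero_mul]
    rw [hw0] at f0
    rw [hw1] at f1
    rw [hw2] at f2
    have hdvd : ∀ i, q i ∣ Polynomial.derivative (q i) := by
      intro i
      refine ⟨b 0 * Polynomial.derivative (q 0) + b 1 * Polynomial.derivative (q 1) +
        b 2 * Polynomial.derivative (q 2), ?_⟩
      fin_cases i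
      · change Polynomial.derivative (q 0) = q 0 * _
        linear_combination (-Polynomial.derivative (q 0)) * hb - b 1 * f2 + b 2 * f1
      · change Polynomial.derivative (q 1) = q 1 * _
        linear_combination (-Polynomial.derivative (q 1)) * hb + b 0 * f2 - b 2 * f0
      · change Polynomial.derivative (q 2) = q 2 * _
        linear_combination (-Polynomial.derivative (q 2)) * hb - b 0 * f1 + b 1 * f0
    have hconst : ∀ i, (q i).natDegree = 0 := by
      intro i
      by_contra hi
      have h1 : Polynomial.derivative (q i) ≠ 0 := by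
        intro h2
        exact hi (Polynomial.derivative_eq_zero.1 h2)
      have h2 := Polynomial.natDegree_le_of_dvd (hdvd i) h1
      have h3 := Polynomial.natDegree_derivative_lt hi
      omega
    apply hne
    rw [hpq j0, hpq k0, Polynomial.eq_C_of_natDegree_eq_zero (hconst j0),
      Polynomial.eq_C_of_natDegree_eq_zero (hconst k0)]
    simp only [Polynomial.eval_mul, Polynomial.eval_C]
    ring
  -- degrees
  obtain ⟨i, hi⟩ := hsm _ hc
  have hvi : (v i).coeff ((D - 1) * d) ≠ 0 := by
    rw [coeff_top q hqd hF.pderiv]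
    exact hi
  have hvd : (D - 1) * d ≤ (v i).natDegree := Polynomial.le_natDegree_of_ne_zero hvi
  have hvi0 : v i ≠ 0 := by
    intro h0
    rw [h0, Polynomial.coeff_zero] at hvi
    exact hvi rfl
  have hwi : (w i).natDegree = h.natDegree + (v i).natDegree := by
    rw [hw i, Polynomial.natDegree_mul hh0 hvi0]
  have hpair : ∀ a b : Fin 3, 0 < d → (q a * Polynomial.derivative (q b) -
      q b * Polynomial.derivative (q a)).natDegree + 1 ≤ 2 * d - 1 + 1 ∧
      (q a * Polynomial.derivative (q b) -
        q b * Polynomial.derivative (q a)).coeff (2 * d - 1) = 0 := by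
    intro a b hd0
    have h1 : ∀ c, (Polynomial.derivative (q c)).natDegree ≤ d - 1 := fun c =>
      (Polynomial.natDegree_derivative_le _).trans (Nat.sub_le_sub_right (hqd c) 1)
    have h2 : ∀ c, (Polynomial.derivative (q c)).coeff (d - 1) = (q c).coeff d * d := by
      intro c
      rw [Polynomial.coeff_derivative, show d - 1 + 1 = d by omega]
      congr 1
      have : ((d - 1 : ℕ) : ℂ) + 1 = ((d - 1 + 1 : ℕ) : ℂ) := by push_cast; ring
      rw [this, show d - 1 + 1 = d by omega]
    refine ⟨?_, ?_⟩
    · refine Nat.succ_le_succ ((Polynomial.natDegree_sub_le _ _).trans (max_le ?_ ?_))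
      · refine Polynomial.natDegree_mul_le.trans ?_
        have := hqd a
        have := h1 b
        omega
      · refine Polynomial.natDegree_mul_le.trans ?_
        have := hqd b
        have := h1 a
        omega
    · rw [Polynomial.coeff_sub, show 2 * d - 1 = d + (d - 1) by omega,
        Polynomial.coeff_mul_add_eq_of_natDegree_le (hqd a) (h1 b),
        Polynomial.coeff_mul_add_eq_of_natDegree_le (hqd b) (h1 a), h2, h2]
      ring
  rcases Nat.eq_zero_or_pos d with hd0 | hd0
  · -- constant curves
    have hconst : ∀ i, (q i).natDegree = 0 := fun i => by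
      have := hqd i
      omega
    apply hne
    rw [hpq j0, hpq k0, Polynomial.eq_C_of_natDegree_eq_zero (hconst j0),
      Polynomial.eq_C_of_natDegree_eq_zero (hconst k0)]
    simp only [Polynomial.eval_mul, Polynomial.eval_C]
    ring
  · have hwd : (w i).natDegree < 2 * d - 1 ∨ w i = 0 := by
      have hw' : ∃ a b : Fin 3, w i = q a * Polynomial.derivative (q b) -
          q b * Polynomial.derivative (q a) := by
        fin_cases i
        · exact ⟨1, 2, rfl⟩
        · exact ⟨2, 0, rfl⟩
        · exact ⟨0, 1, rfl⟩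
      obtain ⟨a, b, hab⟩ := hw'
      obtain ⟨h1, h2⟩ := hpair a b hd0
      rw [← hab] at h1 h2
      by_cases h0 : w i = 0
      · exact Or.inr h0
      · left
        refine lt_of_le_of_ne (by omega) fun h3 => h0 ?_
        rw [← h3] at h2
        exact Polynomial.leadingCoeff_eq_zero.1 h2
    rcases hwd with h1 | h1
    · have h2 : 2 * d ≤ (D - 1) * d := Nat.mul_le_mul_right _ (by omega)
      omega
    · rw [hw i] at h1
      rcases mul_eq_zero.1 h1 with h2 | h2
      · exact hh0 h2
      · exact hvi0 h2

end Pool.Agent.Q309.TP
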