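import Pool.Agent.Q309.TP.Main
import Pool.Agent.Q309.TP.Plane
import Pool.Agent.Q309.DU.UniF
import Pool.Agent.Q309.DU.Run

/-!
Bounds for the number of different points in sequences given by linear difference equations with
polynomial coefficients, over fields.
-/

set_option autoImplicit false

namespace Pool.Agent.Q309.TP

open MvPolynomial Filter
open Pool.Agent.Q309.DU
open Pool.Agent.Q1.SL
open Pool.Agent.TH143.EL (HolMap)
open scoped LinearAlgebra.Projectivization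

variable {n : ℕ} {L : Type} [Field L]

/-- There are at most `N` different points among `x 0, ..., x M`: each of them is equal to `x i` for
some `i` in a set of at most `N` indices. -/
def Few (N M : ℕ) (x : ℕ → Fin (n + 1) → L) : Prop :=
  ∃ I : Finset ℕ, I.card ≤ N ∧ ∀ m ≤ M, ∃ i ∈ I, i ≤ m ∧ ∀ u v, x i u * x m v = x i v * x m u

/-- Each of the `n + 1` sequences of homogeneous coordinates satisfies a nontrivial recurrence
`∑ P_k (t m) x (m + k) j = 0` of order at most `r`, the coefficients are values of polynomials of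
degree at most `e` over `L` at different points `t m` with `t (m + 1) = α t m + β` (for instance
`t m = m` or `t m = q ^ m`). -/
def Rec (r e : ℕ) (x : ℕ → Fin (n + 1) → L) : Prop :=
  ∃ (t : ℕ → L) (α β : L), (∀ m, t (m + 1) = α * t m + β) ∧ Function.Injective t ∧
    ∀ j, ∃ P : ℕ → Polynomial L, (∃ k ≤ r, P k ≠ 0) ∧ (∀ k, (P k).natDegree ≤ e) ∧
      ∀ m, ∑ k ∈ Finset.range (r + 1), (P k).eval (t m) * x (m + k) j = 0

theorem Rec.dseq {r e : ℕ} {x : ℕ → Fin (n + 1) → L} (h : Rec r e x) (hx : ∀ m, x m ≠ 0) (B : ℕ) :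
    DSeq r e B x := by
  obtain ⟨t, α, β, h1, h2, h3⟩ := h
  refine ⟨fun m _ => hx m, t, α, β, h1, fun i j hij _ h4 => absurd (h2 h4) hij.ne, fun j => ?_⟩
  obtain ⟨P, h4, h5, h6⟩ := h3 j
  exact ⟨P, h4, h5, fun m _ => h6 m⟩

theorem wseq_of {r e B : ℕ} {x : ℕ → Fin (n + 1) → L} (h : DSeq r e B x) (τ : L →+* ℂ)
    {S : Set (MvPolynomial (Fin (n + 1)) ℂ)}
    (hS : ∀ m ≤ B, ∀ F ∈ S, eval (fun j => τ (x m j)) F = 0) :
    ∃ t : ℕ → ℂ, WSeq r e S B t fun m j => τ (x m j) := by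
  obtain ⟨t, α, β, h1, h2, h3⟩ := h.eqn
  refine ⟨fun m => τ (t m), ⟨⟨τ α, τ β, fun m => by rw [h1, map_add, map_mul]⟩,
    fun i j hij hj h4 => h2 i j hij hj (τ.injective h4), fun m hm h4 => h.ne m hm ?_,
    fun j => ?_, hS⟩⟩
  · funext j
    have h5 := congrFun h4 j
    exact (map_eq_zero τ).1 h5
  · obtain ⟨P, ⟨k0, hk0, hPk⟩, hPe, hrec⟩ := h3 j
    refine ⟨fun k => (P k).map τ, ⟨k0, hk0, ?_⟩, fun k => ?_, fun m hm => ?_⟩
    · rwa [Ne, Polynomial.map_eq_zero_iff τ.injective]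
    · exact (Polynomial.natDegree_map_le).trans (hPe k)
    · have h4 := congrArg τ (hrec m hm)
      rw [map_zero, map_sum] at h4
      rw [← h4]
      refine Finset.sum_congr rfl fun k _ => ?_
      rw [map_mul, Polynomial.eval_map, Polynomial.eval₂_at_apply]

theorem few_of {N M : ℕ} {x : ℕ → Fin (n + 1) → L} (τ : L →+* ℂ)
    (h : ∃ I : Finset ℕ, I.card ≤ N ∧ ∀ m ≤ M, ∃ i ∈ I, i ≤ m ∧
      Same (fun j => τ (x i j)) fun j => τ (x m j)) : Few N M x := by
  obtain ⟨I, hI, hIm⟩ := h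
  refine ⟨I, hI, fun m hm => ?_⟩
  obtain ⟨i, hi, him, hs⟩ := hIm m hm
  refine ⟨i, hi, him, fun u v => τ.injective ?_⟩
  rw [map_mul, map_mul]
  exact hs u v

/-- **Infinite sequences.** -/
theorem encard_le {N : ℕ} {x : ℕ → Fin (n + 1) → L} (hx : ∀ m, x m ≠ 0) (h : ∀ M, Few N M x) :
    (Set.range fun m => Projectivization.mk L (x m) (hx m)).encard ≤ N := by
  classical
  have hmk : ∀ i m, (∀ u v, x i u * x m v = x i v * x m u) ↔
      Projectivization.mk L (x m) (hx m) = Projectivization.mk L (x i) (hx i) := by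
    intro i m
    rw [Projectivization.mk_eq_mk_iff']
    constructor
    · intro h1
      obtain ⟨l, hl⟩ := Function.ne_iff.1 (hx i)
      refine ⟨x m l / x i l, ?_⟩
      funext v
      have hl' : x i l ≠ 0 := hl
      rw [Pi.smul_apply, smul_eq_mul, div_mul_eq_mul_div, div_eq_iff hl']
      have := h1 l v
      linear_combination -this
    · rintro ⟨a, ha⟩ u v
      rw [← ha, Pi.smul_apply, Pi.smul_apply, smul_eq_mul, smul_eq_mul]
      ring
  let T : Set ℕ := {m | ∀ m' < m, Projectivization.mk L (x m') (hx m') ≠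
    Projectivization.mk L (x m) (hx m)}
  have hT : ∀ A : Finset ℕ, (A : Set ℕ) ⊆ T → A.card ≤ N := by
    intro A hA
    obtain ⟨I, hI, hIm⟩ := h (A.sup id)
    refine (Finset.card_le_card fun m hm => ?_).trans hI
    obtain ⟨i, hi, him, hs⟩ := hIm m (Finset.le_sup (f := id) hm)
    rcases him.eq_or_lt with h1 | h1
    · rwa [← h1]
    · exact absurd ((hmk i m).1 hs).symm (hA hm i h1)
  have hfin : T.Finite := by
    by_contra hinf
    obtain ⟨A, hA1, hA2⟩ := Set.Infinite.exists_subset_card_eq hinf (N + 1)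
    have := hT A hA1
    omega
  have h1 : (Set.range fun m => Projectivization.mk L (x m) (hx m)) ⊆
      (fun m => Projectivization.mk L (x m) (hx m)) '' T := by
    rintro _ ⟨m, rfl⟩
    induction m using Nat.strong_induction_on with
    | _ m ih =>
      by_cases hm : m ∈ T
      · exact ⟨m, hm, rfl⟩
      · have hm2 : ∃ m' < m, Projectivization.mk L (x m') (hx m') =
            Projectivization.mk L (x m) (hx m) := by
          by_contra hcon
          push Not at hcon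
          exact hm hcon
        obtain ⟨m', hm', he⟩ := hm2
        beta_reduce
        rw [← he]
        exact ih m' hm'
  refine (Set.encard_le_encard h1).trans ((Set.encard_image_le _ _).trans ?_)
  rw [hfin.encard_eq_coe_toFinset_card]
  exact_mod_cast hT _ (by rw [Set.Finite.coe_toFinset])

/-- the dichotomy, uniformly in the variety, the field and the sequence -/
theorem dich_uniform (n D r e : ℕ) : ∃ N : ℕ, ∀ S : Set (MvPolynomial (Fin (n + 1)) ℂ),
    (∀ F ∈ S, ∃ e, e ≤ D ∧ F.IsHomogeneous e) → ∀ G : MvPolynomial (Fin (n + 1)) ℂ,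
      (∃ e, e ≤ D ∧ G.IsHomogeneous e) →
      (RatIn S G N ∧ ∀ (L : Type) [Field L] (τ : L →+* ℂ) (M : ℕ) (x : ℕ → Fin (n + 1) → L),
        DSeq r e M x → (∀ m ≤ M, (∀ F ∈ S, eval (fun j => τ (x m j)) F = 0) ∧
          eval (fun j => τ (x m j)) G ≠ 0) → Few N M x) ∨
      (¬ RatIn S G N ∧ ∀ M, ∃ x : ℕ → Fin (n + 1) → ℂ, DSeq 1 N M x ∧ Diff M x ∧
        ∀ m ≤ M, (∀ F ∈ S, eval (x m) F = 0) ∧ eval (x m) G ≠ 0) := by
  obtain ⟨N, hN⟩ := pts_uniform n D r e
  refine ⟨N, fun S hS G hG => ?_⟩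
  by_cases hrat : RatIn S G N
  · refine Or.inl ⟨hrat, fun L _ τ M x hx hX => ?_⟩
    obtain ⟨t, ht⟩ := wseq_of hx τ fun m hm F hF => (hX m hm).1 F hF
    exact few_of τ (hN S hS G hG hrat M t _ ht fun m hm => (hX m hm).2)
  · refine Or.inr ⟨hrat, fun M => ?_⟩
    obtain ⟨x, h1, h2, h3, h4⟩ := run_of_rat hrat M
    exact ⟨x, h1, h2, fun m hm => ⟨h3 m hm, h4 m hm⟩⟩

theorem brody {S : Set (MvPolynomial (Fin (n + 1)) ℂ)} (hS : ∀ F ∈ S, ∃ e, F.IsHomogeneous e)
    (hyp : ∀ f : ℂ → ℙ ℂ (Fin (n + 1) → ℂ), HolMap f → (∀ z, ∀ F ∈ S, eval (f z).rep F = 0) →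
          ∀ z w, f z = f w) (G : MvPolynomial (Fin (n + 1)) ℂ) (d : ℕ) : RatIn S G d := by
  intro p hp1 hp2 hp3
  exfalso
  obtain ⟨f, hf, -, -, hI, ⟨z, w, hzw⟩, -⟩ := exists_curve hp3 (I := Ideal.span S)
    fun F hF => span_mem hp2 hF
  exact hzw (hyp f hf (fun z F hF => hI z F (Ideal.subset_span hF) (hS F hF)) z w)

theorem smooth_ratIn {F : MvPolynomial (Fin 3) ℂ} {D : ℕ} (hF : F.IsHomogeneous D) (hD : 3 ≤ D)
    (hsm : Smooth F) (G : MvPolynomial (Fin (2 + 1)) ℂ) (d : ℕ) :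
    RatIn ({F} : Set (MvPolynomial (Fin (2 + 1)) ℂ)) G d := fun _ _ hp2 hp3 =>
  absurd hp3 (plane hF hD hsm (hp2 F rfl))

end Pool.Agent.Q309.TP
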